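import Pool.Agent.Helper43_TP.Final

set_option autoImplicit false

/-!
# Virtual knots with one virtual triple point

All definitions are in `Pool/Agent/Helper43_TP/Defs.lean`, `Pool/Agent/Helper43_HT/Defs.lean` (`Spherical`) and in
the starting file `Pool/Agent/H891R2/HO/Defs.lean`.  For a diagram in the plane (or in the sphere) of a virtual
knot whose virtual crossings are the vertices of one triangle, formed by the three lines `a`, `b`, `c`:

* `fV`: the normalised bracket (the Jones polynomial in the variable `A`) of the virtual knot;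
* `fABC`, `fCBA`: the normalised brackets of the two classical knots in which the line `a` lies above `b` and `b`
  above `c`, respectively `c` above `b` and `b` above `a`;
* `sgn`: the sum of the signs of the three crossings of the triangle in the first of them.

The line `b` can be any of the three lines.
-/

namespace Pool.Agent.Results.MP_7bc610_gt.VirtualTriplePoint

open LaurentPolynomial Pool.Agent.H891R2.HO Pool.Agent.Helper43_TP

/-- Let `K` be a virtual knot with a diagram whose virtual crossings form one triangle, and let `σ` be `sgn`.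

1. `A^(3σ+1) f(abc) + A^(-3σ-1) f(cba) = (A^4 + A^(-4)) f(K)`.
2. `f(K) = 1` if and only if `A^(3σ+1) f(abc) + A^(-3σ-1) f(cba) = A^4 + A^(-4)`.
3. If the exponents of `f(K)` are divisible by four, as for all classical knots, and `f(K) ≠ 0` (in particular if
   `f(K) = 1`), then `σ = 1` or `σ = -3`.
4. If `f(K) = 1` and `σ = 1` then `f(abc) = 1` if and only if `f(cba) = 1`.
5. If `f(K) = 1` and `σ = -3` then `f(abc) = 1` if and only if `f(cba) = A^(-4) + A^(-12) - A^(-16)`, and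
   `f(cba) = 1` if and only if `f(abc) = A^4 + A^12 - A^16` (the polynomials of the trefoil knots).
6. If `f(abc) = f(cba) = 1` then `f(K) = 1` if and only if `σ = 1`. -/
theorem result :
    ∀ (k : ℕ) (G : Shadow k) (w : Fin k → Bool) (o : Fin k × Fin 4 → Bool) (i₀ i₁ i₂ : Fin k),
      IsTriangle G w o i₀ i₁ i₂ →
      T (3 * sgn w o i₀ i₁ i₂ + 1) * fABC G w o +
          T (-(3 * sgn w o i₀ i₁ i₂ + 1)) * fCBA G w o i₀ i₁ i₂ =
        (T 4 + T (-4)) * fV G w o i₀ i₁ i₂ ∧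
      (fV G w o i₀ i₁ i₂ = 1 ↔ T (3 * sgn w o i₀ i₁ i₂ + 1) * fABC G w o +
          T (-(3 * sgn w o i₀ i₁ i₂ + 1)) * fCBA G w o i₀ i₁ i₂ = T 4 + T (-4)) ∧
      (fV G w o i₀ i₁ i₂ ≠ 0 → (∀ j : ℤ, (fV G w o i₀ i₁ i₂).coeff j ≠ 0 → (4 : ℤ) ∣ j) →
        sgn w o i₀ i₁ i₂ = 1 ∨ sgn w o i₀ i₁ i₂ = -3) ∧
      (fV G w o i₀ i₁ i₂ = 1 → (sgn w o i₀ i₁ i₂ = 1 ∧ (fABC G w o = 1 ↔ fCBA G w o i₀ i₁ i₂ = 1)) ∨
        (sgn w o i₀ i₁ i₂ = -3 ∧
          (fABC G w o = 1 ↔ fCBA G w o i₀ i₁ i₂ = T (-4) + T (-12) - T (-16)) ∧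
          (fCBA G w o i₀ i₁ i₂ = 1 ↔ fABC G w o = T 4 + T 12 - T 16))) ∧
      (fABC G w o = 1 → fCBA G w o i₀ i₁ i₂ = 1 →
        (fV G w o i₀ i₁ i₂ = 1 ↔ sgn w o i₀ i₁ i₂ = 1)) := by
  intro k G w o i₀ i₁ i₂ h
  have h4 : fV G w o i₀ i₁ i₂ = 1 → (sgn w o i₀ i₁ i₂ = 1 ∧ (fABC G w o = 1 ↔ fCBA G w o i₀ i₁ i₂ = 1)) ∨
      (sgn w o i₀ i₁ i₂ = -3 ∧
        (fABC G w o = 1 ↔ fCBA G w o i₀ i₁ i₂ = T (-4) + T (-12) - T (-16)) ∧
        (fCBA G w o i₀ i₁ i₂ = 1 ↔ fABC G w o = T 4 + T 12 - T 16)) := by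
    intro h1
    have h2 := (main_iff G w o i₀ i₁ i₂ h).1 h1
    rcases unit_exponents G w o i₀ i₁ i₂ h h1 with hs | hs
    · left
      rw [hs] at h2
      exact ⟨hs, case_one _ _ (by rw [← h2]; norm_num)⟩
    · right
      rw [hs] at h2
      exact ⟨hs, case_three _ _ (by rw [← h2]; norm_num)⟩
  refine ⟨main G w o i₀ i₁ i₂ h, main_iff G w o i₀ i₁ i₂ h, sgn_of_exponents G w o i₀ i₁ i₂ h, h4, ?_⟩
  intro ha hc
  constructor
  · intro h1
    rcases h4 h1 with ⟨hs, _⟩ | ⟨_, h5, _⟩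
    · exact hs
    · exfalso
      have h6 := h5.1 ha
      rw [hc] at h6
      exact trefoil_ne h6.symm
  · intro hs
    rw [main_iff G w o i₀ i₁ i₂ h, ha, hc, hs]
    norm_num

end Pool.Agent.Results.MP_7bc610_gt.VirtualTriplePoint
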